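import Mathlib

/-!
# Two-hop (hub) labellings of sparse acyclic digraphs have total size at least n^2 / exp(20 sqrt(log n))

For every `n` there is an acyclic digraph on `n` vertices with at most `n` edges such that every two-hop
labelling for reachability has total label size at least `n^2 * exp(-20 * sqrt(log n))`.

Construction: the vertices are triples (time t, position x in a grid of dimension l, accumulated cost D), and
an edge at time `t` adds some `a < m` to the coordinate `t mod l` and adds `a^2` to the cost.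
Between (0, x, 0) and (2l, x + 2a, 2|a|^2) there is only one path, because the total cost is the least possible
one.  From the far endpoint and any vertex of the path one can read off the near endpoint, or the other way round.
Every such pair therefore needs its own label entry.
-/

namespace Pool.Agent.Results.MP_dd2a0a_lc.HubLabelLower

open Relation Finset

/-- A two-hop (hub) labelling for reachability in the digraph with edge relation `E`: every vertex `v` has
an out-label `Lout v`, a set of vertices reachable from `v`, and an in-label `Lin v`, a set of vertices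
from which `v` is reachable, and whenever `v` is reachable from `u` (the case `u = v` included) the
labels `Lout u` and `Lin v` share a vertex.  Hence `v` is reachable from `u` if and only if
`Lout u` meets `Lin v`. -/
structure IsTwoHop {V : Type*} (E : V → V → Prop) (Lout Lin : V → Finset V) : Prop where
  out_reach : ∀ u h, h ∈ Lout u → ReflTransGen E u h
  in_reach : ∀ v h, h ∈ Lin v → ReflTransGen E h v
  cover : ∀ u v, ReflTransGen E u v → ∃ h, h ∈ Lout u ∧ h ∈ Lin v

/-- points: time, position, accumulated cost -/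
abbrev Pt (l : ℕ) : Type := ℕ × (Fin l → ℕ) × ℕ

/-- base edge relation -/
def Step (l m : ℕ) (p q : Pt l) : Prop :=
  q.1 = p.1 + 1 ∧ ∃ c : Fin l, (p.1 = c ∨ p.1 = l + c) ∧ ∃ a < m,
    q.2.1 = Function.update p.2.1 c (p.2.1 c + a) ∧ q.2.2 = p.2.2 + a ^ 2

def Inv (l : ℕ) (p q : Pt l) : Prop :=
  p.1 ≤ q.1 ∧ ∃ a b : Fin l → ℕ,
    (∀ c : Fin l, ¬ (p.1 ≤ (c : ℕ) ∧ (c : ℕ) < q.1) → a c = 0) ∧
    (∀ c : Fin l, ¬ (p.1 ≤ l + (c : ℕ) ∧ l + (c : ℕ) < q.1) → b c = 0) ∧
    (∀ c : Fin l, q.2.1 c = p.2.1 c + a c + b c) ∧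
    q.2.2 = p.2.2 + ∑ c, (a c ^ 2 + b c ^ 2)

theorem sum_update_sq {l : ℕ} (f g : Fin l → ℕ) (c : Fin l) (v : ℕ) (hf : f c = 0) :
    ∑ d, (Function.update f c v d ^ 2 + g d ^ 2) = ∑ d, (f d ^ 2 + g d ^ 2) + v ^ 2 := by
  rw [Finset.sum_add_distrib, Finset.sum_add_distrib]
  have h1 : ∑ d, Function.update f c v d ^ 2 = ∑ d, f d ^ 2 + v ^ 2 := by
    rw [← Finset.add_sum_erase _ _ (Finset.mem_univ c), ← Finset.add_sum_erase _ (fun d => f d ^ 2) (Finset.mem_univ c)]
    rw [Function.update_self, hf]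
    have : ∑ x ∈ Finset.univ.erase c, Function.update f c v x ^ 2 = ∑ x ∈ Finset.univ.erase c, f x ^ 2 := by
      refine Finset.sum_congr rfl fun x hx => ?_
      rw [Function.update_of_ne (Finset.ne_of_mem_erase hx)]
    rw [this]; ring
  rw [h1]; ring

theorem inv_of_reach {l m : ℕ} {p q : Pt l} (h : ReflTransGen (Step l m) p q) : Inv l p q := by
  induction h with
  | refl => exact ⟨le_rfl, fun _ => 0, fun _ => 0, by simp, by simp, by simp, by simp⟩
  | @tail q r _ hqr ih =>
    obtain ⟨h1, a, b, ha, hb, hx, hD⟩ := ih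
    obtain ⟨hr1, c, hc, v, hv, hr2, hr3⟩ := hqr
    have hcl := c.2
    rcases hc with hc | hc
    · refine ⟨by omega, Function.update a c v, b, ?_, ?_, ?_, ?_⟩
      · intro d hd
        have hdc : d ≠ c := by rintro rfl; omega
        rw [Function.update_of_ne hdc]
        exact ha d (by omega)
      · intro d hd
        exact hb d (by have := d.2; omega)
      · intro d
        by_cases hdc : d = c
        · subst hdc
          rw [hr2, Function.update_self, Function.update_self, hx d, ha d (by omega)]; ring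
        · rw [hr2, Function.update_of_ne hdc, Function.update_of_ne hdc, hx d]
      · rw [sum_update_sq _ _ _ _ (ha c (by omega)), hr3, hD]; ring
    · refine ⟨by omega, a, Function.update b c v, ?_, ?_, ?_, ?_⟩
      · intro d hd
        exact ha d (by have := d.2; omega)
      · intro d hd
        have hdc : d ≠ c := by rintro rfl; omega
        rw [Function.update_of_ne hdc]
        exact hb d (by omega)
      · intro d
        by_cases hdc : d = c
        · subst hdc
          rw [hr2, Function.update_self, Function.update_self, hx d, hb d (by omega)]; ring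
        · rw [hr2, Function.update_of_ne hdc, Function.update_of_ne hdc, hx d]
      · have := sum_update_sq b a c v (hb c (by omega))
        have e1 : ∑ d, (a d ^ 2 + Function.update b c v d ^ 2) = ∑ d, (Function.update b c v d ^ 2 + a d ^ 2) :=
          Finset.sum_congr rfl fun d _ => add_comm _ _
        have e2 : ∑ d, (a d ^ 2 + b d ^ 2) = ∑ d, (b d ^ 2 + a d ^ 2) :=
          Finset.sum_congr rfl fun d _ => add_comm _ _
        rw [e1, this, hr3, hD, e2]; ring

/-- the canonical path -/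
def P {l : ℕ} (x a : Fin l → ℕ) (t : ℕ) : Pt l :=
  (t, fun c => x c + (if (c : ℕ) < t then a c else 0) + (if l + (c : ℕ) < t then a c else 0),
    ∑ c : Fin l, ((if (c : ℕ) < t then a c ^ 2 else 0) + (if l + (c : ℕ) < t then a c ^ 2 else 0)))

theorem step_P {l m : ℕ} {x a : Fin l → ℕ} (ha : ∀ c, a c < m) {t : ℕ} (ht : t < 2 * l) :
    Step l m (P x a t) (P x a (t + 1)) := by
  refine ⟨rfl, ?_⟩
  by_cases h : t < l
  · refine ⟨⟨t, h⟩, Or.inl rfl, a ⟨t, h⟩, ha _, ?_, ?_⟩
    · funext c
      by_cases hc : c = ⟨t, h⟩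
      · subst hc
        simp only [P, Function.update_self]
        rw [if_pos (by simp), if_neg (by simp; omega), if_neg (by simp), if_neg (by simp)]
        ring
      · have hc' : (c : ℕ) ≠ t := fun h' => hc (Fin.ext h')
        rw [Function.update_of_ne hc]
        simp only [P]
        have e1 : ((c : ℕ) < t + 1) = ((c : ℕ) < t) := by
          apply propext; omega
        have e2 : (l + (c : ℕ) < t + 1) = (l + (c : ℕ) < t) := by
          apply propext; omega
        simp only [e1, e2]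
    · simp only [P]
      rw [← Finset.add_sum_erase _ _ (Finset.mem_univ (⟨t, h⟩ : Fin l)),
        ← Finset.add_sum_erase _ (fun c : Fin l => ((if (c : ℕ) < t then a c ^ 2 else 0) + (if l + (c : ℕ) < t then a c ^ 2 else 0))) (Finset.mem_univ (⟨t, h⟩ : Fin l))]
      rw [if_pos (by simp), if_neg (by simp; omega), if_neg (by simp), if_neg (by simp)]
      have : ∑ c ∈ Finset.univ.erase (⟨t, h⟩ : Fin l), ((if (c : ℕ) < t + 1 then a c ^ 2 else 0) + (if l + (c : ℕ) < t + 1 then a c ^ 2 else 0))
          = ∑ c ∈ Finset.univ.erase (⟨t, h⟩ : Fin l), ((if (c : ℕ) < t then a c ^ 2 else 0) + (if l + (c : ℕ) < t then a c ^ 2 else 0)) := by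
        refine Finset.sum_congr rfl fun c hc => ?_
        have hc' : (c : ℕ) ≠ t := fun h' => (Finset.ne_of_mem_erase hc) (Fin.ext h')
        have e1 : ((c : ℕ) < t + 1) = ((c : ℕ) < t) := by
          apply propext; omega
        have e2 : (l + (c : ℕ) < t + 1) = (l + (c : ℕ) < t) := by
          apply propext; omega
        simp only [e1, e2]
      rw [this]; ring
  · have hl : t - l < l := by omega
    refine ⟨⟨t - l, hl⟩, Or.inr (by simp [P]; omega), a ⟨t - l, hl⟩, ha _, ?_, ?_⟩
    · funext c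
      by_cases hc : c = ⟨t - l, hl⟩
      · subst hc
        simp only [P, Function.update_self]
        rw [if_pos (by omega), if_pos (by omega), if_pos (by omega), if_neg (by omega)]
        ring
      · have hc' : (c : ℕ) ≠ t - l := fun h' => hc (Fin.ext h')
        rw [Function.update_of_ne hc]
        simp only [P]
        have e1 : ((c : ℕ) < t + 1) = ((c : ℕ) < t) := by
          apply propext; have := c.2; omega
        have e2 : (l + (c : ℕ) < t + 1) = (l + (c : ℕ) < t) := by
          apply propext; omega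
        simp only [e1, e2]
    · simp only [P]
      rw [← Finset.add_sum_erase _ _ (Finset.mem_univ (⟨t - l, hl⟩ : Fin l)),
        ← Finset.add_sum_erase _ (fun c : Fin l => ((if (c : ℕ) < t then a c ^ 2 else 0) + (if l + (c : ℕ) < t then a c ^ 2 else 0))) (Finset.mem_univ (⟨t - l, hl⟩ : Fin l))]
      rw [if_pos (by dsimp only; omega), if_pos (by dsimp only; omega), if_pos (by dsimp only; omega),
          if_neg (by dsimp only; omega)]
      have : ∑ c ∈ Finset.univ.erase (⟨t - l, hl⟩ : Fin l), ((if (c : ℕ) < t + 1 then a c ^ 2 else 0) + (if l + (c : ℕ) < t + 1 then a c ^ 2 else 0))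
          = ∑ c ∈ Finset.univ.erase (⟨t - l, hl⟩ : Fin l), ((if (c : ℕ) < t then a c ^ 2 else 0) + (if l + (c : ℕ) < t then a c ^ 2 else 0)) := by
        refine Finset.sum_congr rfl fun c hc => ?_
        have hc' : (c : ℕ) ≠ t - l := fun h' => (Finset.ne_of_mem_erase hc) (Fin.ext h')
        have e1 : ((c : ℕ) < t + 1) = ((c : ℕ) < t) := by
          apply propext; have := c.2; omega
        have e2 : (l + (c : ℕ) < t + 1) = (l + (c : ℕ) < t) := by
          apply propext; omega
        simp only [e1, e2]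
      rw [this]; ring

theorem hub_facts {l : ℕ} {x a : Fin l → ℕ} {q : Pt l} (h1 : Inv l (P x a 0) q)
    (h2 : Inv l q (P x a (2 * l))) :
    (q.1 ≤ l → ∀ c : Fin l, q.2.1 c = if (c : ℕ) < q.1 then x c + a c else x c) ∧
    (l < q.1 → ∀ c : Fin l, q.2.1 c = if l + (c : ℕ) < q.1 then x c + a c + a c else x c + a c) := by
  obtain ⟨h10, p1, q1, hp1, hq1, e1, d1⟩ := h1
  obtain ⟨h20, p2, q2, hp2, hq2, e2, d2⟩ := h2
  simp only [P] at e1 e2 hp1 hq1 hp2 hq2 h10 h20 d1 d2
  have hz1 : ∀ c, p1 c = 0 ∨ p2 c = 0 := by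
    intro c
    by_cases h : (c : ℕ) < q.1
    · right; exact hp2 c (by omega)
    · left; exact hp1 c (by omega)
  have hz2 : ∀ c, q1 c = 0 ∨ q2 c = 0 := by
    intro c
    by_cases h : l + (c : ℕ) < q.1
    · right; exact hq2 c (by omega)
    · left; exact hq1 c (by omega)
  have hs : ∀ c, p1 c + p2 c + (q1 c + q2 c) = 2 * a c := by
    intro c
    have := c.2
    have a1 := e1 c
    have a2 := e2 c
    rw [if_neg (by omega), if_neg (by omega)] at a1
    rw [if_pos (by omega), if_pos (by omega)] at a2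
    omega
  have hsum : ∑ c, (a c ^ 2 + a c ^ 2) = ∑ c, ((p1 c + p2 c) ^ 2 + (q1 c + q2 c) ^ 2) := by
    have f1 : ∑ c : Fin l, ((if (c : ℕ) < 2 * l then a c ^ 2 else 0) + (if l + (c : ℕ) < 2 * l then a c ^ 2 else 0)) = ∑ c, (a c ^ 2 + a c ^ 2) := by
      refine Finset.sum_congr rfl fun c _ => ?_
      have := c.2
      rw [if_pos (by omega), if_pos (by omega)]
    have f0 : ∑ c : Fin l, ((if (c : ℕ) < 0 then a c ^ 2 else 0) + (if l + (c : ℕ) < 0 then a c ^ 2 else 0)) = 0 := by
      refine Finset.sum_eq_zero fun c _ => ?_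
      simp
    rw [f0] at d1
    rw [f1] at d2
    rw [d2, d1, zero_add, ← Finset.sum_add_distrib]
    refine Finset.sum_congr rfl fun c _ => ?_
    rcases hz1 c with h | h <;> rcases hz2 c with h' | h' <;> rw [h, h'] <;> ring
  have hle : ∀ c ∈ (Finset.univ : Finset (Fin l)), a c ^ 2 + a c ^ 2 ≤ (p1 c + p2 c) ^ 2 + (q1 c + q2 c) ^ 2 := by
    intro c _
    have := hs c
    generalize p1 c + p2 c = u at *
    generalize q1 c + q2 c = v at *
    have h4 : 4 * (a c ^ 2) = (u + v) ^ 2 := by rw [this]; ring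
    zify at h4 ⊢
    nlinarith [sq_nonneg ((u : ℤ) - v)]
  have heq := (Finset.sum_eq_sum_iff_of_le hle).1 hsum
  have hpa : ∀ c, p1 c + p2 c = a c := by
    intro c
    have h3 := heq c (Finset.mem_univ c)
    have := hs c
    generalize p1 c + p2 c = u at *
    generalize q1 c + q2 c = v at *
    have h4 : 4 * (a c ^ 2) = (u + v) ^ 2 := by rw [this]; ring
    have h5 : ((u : ℤ) - v) ^ 2 = 0 := by
      zify at h3 h4
      nlinarith
    have h6 : (u : ℤ) - v = 0 := by simpa using h5
    omega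
  have hqa : ∀ c, q1 c + q2 c = a c := by
    intro c
    have := hs c
    have := hpa c
    omega
  constructor
  · intro hq c
    have := c.2
    have a1 := e1 c
    rw [if_neg (by omega), if_neg (by omega)] at a1
    have := hq1 c (by omega)
    split_ifs with hc
    · have := hp2 c (by omega)
      have := hpa c
      omega
    · have := hp1 c (by omega)
      omega
  · intro hq c
    have := c.2
    have a1 := e1 c
    rw [if_neg (by omega), if_neg (by omega)] at a1
    have := hp2 c (by omega)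
    have := hpa c
    have := hqa c
    split_ifs with hc
    · have := hq2 c (by omega)
      omega
    · have := hq1 c (by omega)
      omega

/-- vertex set of the finite graph -/
abbrev V0 (l m : ℕ) : Type := Fin (2 * l + 1) × (Fin l → Fin (3 * m)) × Fin (2 * l * m ^ 2 + 1)

def co {l m : ℕ} (p : V0 l m) : Pt l := (p.1, fun c => p.2.1 c, p.2.2)

theorem co_inj {l m : ℕ} : Function.Injective (co (l := l) (m := m)) := by
  intro p q h
  simp only [co, Prod.mk.injEq] at h
  refine Prod.ext (Fin.ext h.1) (Prod.ext (funext fun c => Fin.ext (congrFun h.2.1 c)) (Fin.ext h.2.2))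

/-- the edge relation transported along an injection into `Fin n` -/
def E {l m n : ℕ} (ι : V0 l m → Fin n) (u v : Fin n) : Prop :=
  ∃ p q : V0 l m, ι p = u ∧ ι q = v ∧ Step l m (co p) (co q)

theorem reach_E {l m n : ℕ} {ι : V0 l m → Fin n} (hι : Function.Injective ι)
    {p : V0 l m} {v : Fin n} (h : ReflTransGen (E ι) (ι p) v) :
    ∃ q, ι q = v ∧ ReflTransGen (Step l m) (co p) (co q) := by
  induction h with
  | refl => exact ⟨p, rfl, ReflTransGen.refl⟩
  | tail _ hvw ih =>
    obtain ⟨q, hq, hr⟩ := ih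
    obtain ⟨q', r, hq', hr', hs⟩ := hvw
    have : q' = q := hι (hq'.trans hq.symm)
    subst this
    exact ⟨r, hr', hr.tail hs⟩

theorem cost_le {l m : ℕ} (a : Fin l → Fin m) (t : ℕ) :
    ∑ c : Fin l, ((if (c : ℕ) < t then (a c : ℕ) ^ 2 else 0) + (if l + (c : ℕ) < t then (a c : ℕ) ^ 2 else 0)) < 2 * l * m ^ 2 + 1 := by
  have : ∑ c : Fin l, ((if (c : ℕ) < t then (a c : ℕ) ^ 2 else 0) + (if l + (c : ℕ) < t then (a c : ℕ) ^ 2 else 0)) ≤ ∑ _c : Fin l, (2 * m ^ 2) := by
    refine Finset.sum_le_sum fun c _ => ?_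
    have h : (a c : ℕ) ^ 2 ≤ m ^ 2 := Nat.pow_le_pow_left (a c).2.le 2
    split_ifs <;> omega
  rw [Finset.sum_const, Finset.card_univ, Fintype.card_fin, smul_eq_mul] at this
  have e : l * (2 * m ^ 2) = 2 * l * m ^ 2 := by ring
  omega

/-- points of the canonical path as vertices of the finite graph -/
def PV {l m : ℕ} (x : Fin l → Fin m) (a : Fin l → Fin m) (t : Fin (2 * l + 1)) : V0 l m :=
  (t, fun c => ⟨x c + (if (c : ℕ) < t then (a c : ℕ) else 0) + (if l + (c : ℕ) < t then (a c : ℕ) else 0), by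
    have h1 := (x c).2
    have h2 := (a c).2
    split_ifs <;> omega⟩, ⟨_, cost_le a t⟩)

theorem co_PV {l m : ℕ} (x : Fin l → Fin m) (a : Fin l → Fin m) (t : Fin (2 * l + 1)) :
    co (PV x a t) = P (fun c => (x c : ℕ)) (fun c => (a c : ℕ)) t := rfl

theorem reach_PV {l m n : ℕ} {ι : V0 l m → Fin n} (x : Fin l → Fin m) (a : Fin l → Fin m) (t : ℕ) (ht : t < 2 * l + 1) :
    ReflTransGen (E ι) (ι (PV x a ⟨0, by omega⟩)) (ι (PV x a ⟨t, ht⟩)) := by
  induction t with
  | zero => exact ReflTransGen.refl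
  | succ t ih =>
    refine (ih (by omega)).tail ⟨_, _, rfl, rfl, ?_⟩
    rw [co_PV, co_PV]
    exact step_P (t := t) (fun c => (a c).2) (by omega)

theorem main {l m n : ℕ} {ι : V0 l m → Fin n} (hι : Function.Injective ι) {Lout Lin : Fin n → Finset (Fin n)}
    (hL : IsTwoHop (E ι) Lout Lin) :
    m ^ l * m ^ l ≤ ∑ v, ((Lout v).card + (Lin v).card) := by
  classical
  have hub : ∀ t : (Fin l → Fin m) × (Fin l → Fin m), ∃ q : V0 l m,
      ι q ∈ Lout (ι (PV t.1 t.2 ⟨0, by omega⟩)) ∧ ι q ∈ Lin (ι (PV t.1 t.2 ⟨2 * l, by omega⟩)) ∧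
      ((q.1 : ℕ) ≤ l → ∀ c : Fin l, (q.2.1 c : ℕ) = if (c : ℕ) < q.1 then (t.1 c : ℕ) + t.2 c else (t.1 c : ℕ)) ∧
      (l < (q.1 : ℕ) → ∀ c : Fin l, (q.2.1 c : ℕ) = if l + (c : ℕ) < q.1 then (t.1 c : ℕ) + t.2 c + t.2 c else (t.1 c : ℕ) + t.2 c) := by
    intro t
    obtain ⟨h, h1, h2⟩ := hL.cover _ _ (reach_PV (ι := ι) t.1 t.2 (2 * l) (by omega))
    obtain ⟨q, rfl, hq⟩ := reach_E hι (hL.out_reach _ _ h1)
    obtain ⟨q', hq'1, hq'⟩ := reach_E hι (hL.in_reach _ _ h2)
    have := hι hq'1
    subst this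
    refine ⟨q, h1, h2, ?_⟩
    have i1 := inv_of_reach hq
    have i2 := inv_of_reach hq'
    rw [co_PV] at i1 i2
    exact hub_facts i1 i2
  choose f hf1 hf2 hf3 hf4 using hub
  have hcard : m ^ l * m ^ l = (Finset.univ : Finset ((Fin l → Fin m) × (Fin l → Fin m))).card := by
    simp [Finset.card_univ]
  rw [hcard, ← Finset.card_filter_add_card_filter_not (s := Finset.univ) (fun t => ((f t).1 : ℕ) ≤ l)]
  rw [Finset.sum_add_distrib, add_comm]
  refine Nat.add_le_add ?_ ?_
  · rw [← Finset.card_sigma]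
    refine Finset.card_le_card_of_injOn (fun t => ⟨ι (PV t.1 t.2 ⟨0, by omega⟩), ι (f t)⟩) ?_ ?_
    · intro t _
      simpa using hf1 t
    · intro t ht s hs hts
      simp only [Finset.coe_filter, Finset.mem_univ, true_and, Set.mem_ofPred_eq, not_le] at ht hs
      simp only [Sigma.mk.injEq] at hts
      obtain ⟨e1, e2⟩ := hts
      have e1 := hι e1
      have e2 := hι (eq_of_heq e2)
      have h1 : ∀ c, (t.1 c : ℕ) = s.1 c := by
        intro c
        have := congrArg (fun p : V0 l m => (p.2.1 c : ℕ)) e1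
        simpa [PV] using this
      have h2 : ∀ c, (t.2 c : ℕ) = s.2 c := by
        intro c
        have a1 := hf4 t ht c
        have a2 := hf4 s hs c
        rw [e2] at a1
        rw [a2, h1 c] at a1
        split_ifs at a1 <;> omega
      exact Prod.ext (funext fun c => Fin.ext (h1 c)) (funext fun c => Fin.ext (h2 c))
  · rw [← Finset.card_sigma]
    refine Finset.card_le_card_of_injOn (fun t => ⟨ι (PV t.1 t.2 ⟨2 * l, by omega⟩), ι (f t)⟩) ?_ ?_
    · intro t _
      simpa using hf2 t
    · intro t ht s hs hts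
      simp only [Finset.coe_filter, Finset.mem_univ, true_and, Set.mem_ofPred_eq] at ht hs
      simp only [Sigma.mk.injEq] at hts
      obtain ⟨e1, e2⟩ := hts
      have e1 := hι e1
      have e2 := hι (eq_of_heq e2)
      have h0 : ∀ c : Fin l, (t.1 c : ℕ) + t.2 c + t.2 c = s.1 c + s.2 c + s.2 c := by
        intro c
        have := congrArg (fun p : V0 l m => (p.2.1 c : ℕ)) e1
        have hc := c.2
        simp only [PV] at this
        rw [if_pos (by omega), if_pos (by omega), if_pos (by omega), if_pos (by omega)] at this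
        exact this
      have h1 : ∀ c, (t.1 c : ℕ) = s.1 c ∧ (t.2 c : ℕ) = s.2 c := by
        intro c
        have a1 := hf3 t ht c
        have a2 := hf3 s hs c
        have a3 := h0 c
        rw [e2] at a1
        rw [a2] at a1
        split_ifs at a1 <;> omega
      exact Prod.ext (funext fun c => Fin.ext (h1 c).1) (funext fun c => Fin.ext (h1 c).2)

theorem acyclic {l m n : ℕ} {ι : V0 l m → Fin n} (hι : Function.Injective ι) (v : Fin n) :
    ¬ TransGen (E ι) v v := by
  intro h
  have key : ∀ u w, TransGen (E ι) u w → ∃ p q : V0 l m, ι p = u ∧ ι q = w ∧ (p.1 : ℕ) < q.1 := by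
    intro u w h
    induction h with
    | single h =>
      obtain ⟨p, q, hp, hq, hs⟩ := h
      exact ⟨p, q, hp, hq, by have := hs.1; simp only [co] at this; omega⟩
    | tail _ h ih =>
      obtain ⟨p, q, hp, hq, hs⟩ := h
      obtain ⟨p', q', hp', hq', hs'⟩ := ih
      have : p = q' := hι (hp.trans hq'.symm)
      subst this
      exact ⟨p', q, hp', hq, by have := hs.1; simp only [co] at this; omega⟩
  obtain ⟨p, q, hp, hq, hs⟩ := key v v h
  have : p = q := hι (hp.trans hq.symm)
  subst this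
  omega

theorem edges_le {l m n : ℕ} (ι : V0 l m → Fin n) :
    {p : Fin n × Fin n | E ι p.1 p.2}.ncard ≤ (2 * l + 1) * ((3 * m) ^ l * (2 * l * m ^ 2 + 1)) * m := by
  classical
  rw [Set.ncard_eq_toFinset_card']
  have hc : (2 * l + 1) * ((3 * m) ^ l * (2 * l * m ^ 2 + 1)) * m =
      ((Finset.univ : Finset (V0 l m)) ×ˢ Finset.range m).card := by
    simp [Finset.card_product]
  rw [hc]
  refine Finset.card_le_card_of_forall_subsingleton
    (fun e pa => ∃ q : V0 l m, ι pa.1 = e.1 ∧ ι q = e.2 ∧ (q.1 : ℕ) = pa.1.1 + 1 ∧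
      ∃ c : Fin l, ((pa.1.1 : ℕ) = c ∨ (pa.1.1 : ℕ) = l + c) ∧
        (fun c => (q.2.1 c : ℕ)) = Function.update (fun c => (pa.1.2.1 c : ℕ)) c (pa.1.2.1 c + pa.2) ∧
        (q.2.2 : ℕ) = pa.1.2.2 + pa.2 ^ 2) ?_ ?_
  · rintro ⟨u, v⟩ he
    simp only [Set.mem_toFinset] at he
    obtain ⟨p, q, hp, hq, hs1, c, hc, a, ha, hs2, hs3⟩ := he
    exact ⟨(p, a), by simp [ha], q, hp, hq, hs1, c, hc, hs2, hs3⟩
  · rintro ⟨p, a⟩ _ ⟨u, v⟩ ⟨_, q, hp, hq, h1, c, hc, h2, h3⟩ ⟨u', v'⟩ ⟨_, q', hp', hq', h1', c', hc', h2', h3'⟩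
    simp only at hp hp' hq hq' h1 h1' h2 h2' hc hc' h3 h3'
    have hcc : c = c' := by
      apply Fin.ext
      have := c.2
      have := c'.2
      omega
    subst hcc
    have : q = q' := by
      apply co_inj
      simp only [co]
      rw [h1, h1', h2, h2', h3, h3']
    rw [Prod.mk.injEq]
    exact ⟨hp.symm.trans hp', by rw [← hq, ← hq', this]⟩

theorem trivial_bound {n : ℕ} {E : Fin n → Fin n → Prop} {Lout Lin : Fin n → Finset (Fin n)}
    (hL : IsTwoHop E Lout Lin) : (n : ℝ) ≤ ∑ v, (((Lout v).card : ℝ) + ((Lin v).card : ℝ)) := by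
  have : ∑ _v : Fin n, (1 : ℝ) ≤ ∑ v, (((Lout v).card : ℝ) + ((Lin v).card : ℝ)) := by
    refine Finset.sum_le_sum fun v _ => ?_
    obtain ⟨h, h1, h2⟩ := hL.cover v v ReflTransGen.refl
    have : (1 : ℝ) ≤ (Lout v).card := by exact_mod_cast Finset.card_pos.2 ⟨h, h1⟩
    have : (0 : ℝ) ≤ (Lin v).card := by positivity
    linarith
  simpa using this

theorem arith (n : ℕ) (hn : 9 ≤ Real.log n) : ∃ m l : ℕ,
    (2 * l + 1) * ((3 * m) ^ l * (2 * l * m ^ 2 + 1)) * m ≤ n ∧ 1 ≤ m ∧
    (n : ℝ) ^ 2 * Real.exp (-20 * √(Real.log n)) ≤ ((m ^ l * m ^ l : ℕ) : ℝ) := by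
  have hn0 : (0 : ℝ) < n := by
    rcases Nat.eq_zero_or_pos n with h | h
    · subst h; simp at hn; linarith
    · exact_mod_cast h
  set L := Real.log n with hL
  set a := √L with ha
  have ha2 : a ^ 2 = L := Real.sq_sqrt (by linarith)
  have ha3 : 3 ≤ a := by
    rw [ha]; apply Real.le_sqrt_of_sq_le; norm_num; exact hn
  have ha0 : 0 < a := by linarith
  set m := ⌊Real.exp a⌋₊ with hm
  have hexp1 : 1 ≤ Real.exp a := Real.one_le_exp ha0.le
  have hm1 : 1 ≤ m := by
    rw [hm]; exact Nat.le_floor (by simpa using hexp1)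
  have hmle : (m : ℝ) ≤ Real.exp a := Nat.floor_le (by positivity)
  have hmlt : Real.exp a < m + 1 := Nat.lt_floor_add_one _
  have hm1' : (1 : ℝ) ≤ m := by exact_mod_cast hm1
  have hexpL : Real.exp (a ^ 2) = n := by rw [ha2, hL, Real.exp_log hn0]
  have hmn : m ^ 3 ≤ n := by
    have : (m : ℝ) ^ 3 ≤ n := by
      calc (m : ℝ) ^ 3 ≤ (Real.exp a) ^ 3 := by gcongr
        _ = Real.exp (3 * a) := by rw [← Real.exp_nat_mul]; norm_num
        _ ≤ Real.exp (a ^ 2) := by
            apply Real.exp_le_exp.2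
            have := mul_le_mul_of_nonneg_right ha3 ha0.le
            rw [sq]; exact this
        _ = n := hexpL
    exact_mod_cast this
  set B := 27 * m with hB
  have hB1 : 1 < B := by omega
  set l := Nat.log B (n / m ^ 3) with hl
  have hm3 : 0 < m ^ 3 := by positivity
  have hnm : n / m ^ 3 ≠ 0 := by
    have := Nat.div_pos hmn hm3
    omega
  have h1 : B ^ l ≤ n / m ^ 3 := Nat.pow_log_le_self B hnm
  have h2 : n / m ^ 3 < B ^ (l + 1) := Nat.lt_pow_succ_log_self hB1 _
  have h1' : B ^ l * m ^ 3 ≤ n := (Nat.mul_le_mul_right _ h1).trans (Nat.div_mul_le_self _ _)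
  have h2' : n < B ^ (l + 1) * m ^ 3 := (Nat.div_lt_iff_lt_mul hm3).1 h2
  have h3 : ∀ l : ℕ, 2 * l + 1 ≤ 3 ^ l := by
    intro l
    induction l with
    | zero => simp
    | succ l ih => rw [pow_succ]; omega
  refine ⟨m, l, ?_, hm1, ?_⟩
  · refine le_trans ?_ h1'
    have e1 : 2 * l * m ^ 2 + 1 ≤ 3 ^ l * m ^ 2 := by
      have : 1 ≤ m ^ 2 := Nat.one_le_pow _ _ hm1
      calc 2 * l * m ^ 2 + 1 ≤ 2 * l * m ^ 2 + m ^ 2 := by omega
        _ = (2 * l + 1) * m ^ 2 := by ring
        _ ≤ 3 ^ l * m ^ 2 := Nat.mul_le_mul_right _ (h3 l)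
    calc (2 * l + 1) * ((3 * m) ^ l * (2 * l * m ^ 2 + 1)) * m
        ≤ 3 ^ l * ((3 * m) ^ l * (3 ^ l * m ^ 2)) * m := by
          gcongr
          exact h3 l
      _ = B ^ l * m ^ 3 := by
          have : B ^ l = 3 ^ l * (3 ^ l * (3 * m) ^ l) := by
            rw [← mul_pow, ← mul_pow, hB]; ring_nf
          rw [this]; ring
  · -- main estimate
    have hla : (l : ℝ) ≤ a := by
      have hBle : (B : ℝ) ^ l ≤ n := by
        have : B ^ l ≤ n := by
          calc B ^ l ≤ B ^ l * m ^ 3 := Nat.le_mul_of_pos_right _ hm3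
            _ ≤ n := h1'
        exact_mod_cast this
      have hBge : Real.exp a ≤ B := by
        rw [hB]; push_cast; linarith
      have h5 : Real.exp (l * a) ≤ Real.exp (a ^ 2) := by
        rw [hexpL, Real.exp_nat_mul]
        refine le_trans ?_ hBle
        gcongr
      have h6 := Real.exp_le_exp.1 h5
      rw [sq] at h6
      exact le_of_mul_le_mul_right h6 ha0
    have hn' : (n : ℝ) ≤ (27 * m) ^ (l + 1) * m ^ 3 := by
      have := h2'.le
      have h : ((n : ℕ) : ℝ) ≤ ((B ^ (l + 1) * m ^ 3 : ℕ) : ℝ) := by exact_mod_cast this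
      rw [hB] at h
      push_cast at h
      exact h
    have h27 : (27 : ℝ) ≤ Real.exp (10 / 3) := by
      have h := Real.exp_one_gt_d9
      have h7 : (27 : ℝ) = 3 ^ 3 := by norm_num
      have h8 : Real.exp (10 / 3) = (Real.exp (10 / 9)) ^ 3 := by
        rw [← Real.exp_nat_mul]; norm_num
      have h9 : (3 : ℝ) ≤ Real.exp (10 / 9) := by
        have h10 : Real.exp (10 / 9) = Real.exp 1 * Real.exp (1 / 9) := by rw [← Real.exp_add]; norm_num
        have h11 : (10 / 9 : ℝ) ≤ Real.exp (1 / 9) := by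
          have := Real.add_one_le_exp (1 / 9)
          linarith
        rw [h10]
        nlinarith
      rw [h7, h8]
      gcongr
    have e27 : (27 : ℝ) ^ l ≤ Real.exp (a * (10 / 3)) := by
      calc (27 : ℝ) ^ l ≤ (Real.exp (10 / 3)) ^ l := by gcongr
        _ = Real.exp (l * (10 / 3)) := by rw [← Real.exp_nat_mul]
        _ ≤ Real.exp (a * (10 / 3)) := by
            apply Real.exp_le_exp.2
            linarith
    have hml : (0 : ℝ) < (m : ℝ) ^ l := by positivity
    have hn2' : (n : ℝ) ^ 2 ≤ ((27 * m) ^ (l + 1) * m ^ 3) ^ 2 := by gcongr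
    have e1 : (((27 * m) ^ (l + 1) * m ^ 3) ^ 2 : ℝ) = (m ^ l) ^ 2 * ((27 ^ l) ^ 2 * (27 ^ 2 * (m : ℝ) ^ 8)) := by
      rw [mul_pow, pow_succ, pow_succ]; ring
    have e2 : ((27 : ℝ) ^ l) ^ 2 * (27 ^ 2 * (m : ℝ) ^ 8) ≤
        (Real.exp (a * (10 / 3))) ^ 2 * ((Real.exp (10 / 3)) ^ 2 * (Real.exp a) ^ 8) := by gcongr
    have e3 : (Real.exp (a * (10 / 3))) ^ 2 * ((Real.exp (10 / 3)) ^ 2 * (Real.exp a) ^ 8) =
        Real.exp (20 / 3 * a + 20 / 3 + 8 * a) := by
      rw [← Real.exp_nat_mul, ← Real.exp_nat_mul, ← Real.exp_nat_mul, ← Real.exp_add, ← Real.exp_add]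
      congr 1
      push_cast
      ring
    have e4 : Real.exp (20 / 3 * a + 20 / 3 + 8 * a) * Real.exp (-20 * a) ≤ 1 := by
      rw [← Real.exp_add, ← Real.exp_zero]
      apply Real.exp_le_exp.2
      linarith
    calc (n : ℝ) ^ 2 * Real.exp (-20 * a)
        ≤ ((27 * m) ^ (l + 1) * m ^ 3) ^ 2 * Real.exp (-20 * a) :=
          mul_le_mul_of_nonneg_right hn2' (Real.exp_pos _).le
      _ = (m ^ l) ^ 2 * (((27 ^ l) ^ 2 * (27 ^ 2 * (m : ℝ) ^ 8)) * Real.exp (-20 * a)) := by
          rw [e1, mul_assoc]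
      _ ≤ (m ^ l) ^ 2 * (Real.exp (20 / 3 * a + 20 / 3 + 8 * a) * Real.exp (-20 * a)) := by
          rw [← e3]
          exact mul_le_mul_of_nonneg_left (mul_le_mul_of_nonneg_right e2 (Real.exp_pos _).le) (by positivity)
      _ ≤ (m ^ l) ^ 2 * 1 :=
          mul_le_mul_of_nonneg_left e4 (by positivity)
      _ = ((m ^ l * m ^ l : ℕ) : ℝ) := by push_cast; ring

/-- **Main result.** For every `n` there is an acyclic digraph on `n` vertices with at most `n` edges all of
whose two-hop labellings have total size at least `n^2 * exp(-20 * sqrt(log n))`. -/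
theorem result : ∀ n : ℕ, ∃ E : Fin n → Fin n → Prop,
    (∀ v, ¬ TransGen E v v) ∧
    {e : Fin n × Fin n | E e.1 e.2}.ncard ≤ n ∧
    ∀ Lout Lin : Fin n → Finset (Fin n), IsTwoHop E Lout Lin →
      (n : ℝ) ^ 2 * Real.exp (-20 * √(Real.log n)) ≤
        ∑ v, (((Lout v).card : ℝ) + ((Lin v).card : ℝ)) := by
  intro n
  by_cases hn : 9 ≤ Real.log n
  · obtain ⟨m, l, h1, hm1, h2⟩ := arith n hn
    have hcard : Fintype.card (V0 l m) = (2 * l + 1) * ((3 * m) ^ l * (2 * l * m ^ 2 + 1)) := by simp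
    have hle : Fintype.card (V0 l m) ≤ n := by
      rw [hcard]
      exact le_trans (Nat.le_mul_of_pos_right _ hm1) h1
    let ι : V0 l m → Fin n := fun p => Fin.castLE hle (Fintype.equivFin (V0 l m) p)
    have hι : Function.Injective ι := by
      intro p q h
      exact (Fintype.equivFin (V0 l m)).injective (Fin.castLE_injective hle h)
    refine ⟨E ι, acyclic hι, (edges_le ι).trans h1, ?_⟩
    intro Lout Lin hL
    have h3 := main hι hL
    refine h2.trans ?_
    calc ((m ^ l * m ^ l : ℕ) : ℝ) ≤ ((∑ v, ((Lout v).card + (Lin v).card) : ℕ) : ℝ) := by exact_mod_cast h3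
      _ = _ := by push_cast; rfl
  · refine ⟨fun _ _ => False, ?_, by simp, ?_⟩
    · intro v h
      cases h with
      | single h => exact h
      | tail _ h => exact h
    · intro Lout Lin hL
      refine le_trans ?_ (trivial_bound hL)
      rcases Nat.eq_zero_or_pos n with h | h
      · subst h; simp
      · have hn0 : (0 : ℝ) < n := by exact_mod_cast h
        have hL0 : 0 ≤ Real.log n := Real.log_nonneg (by exact_mod_cast h)
        push Not at hn
        have h1 : Real.log n ≤ 20 * √(Real.log n) := by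
          have h2 : √(Real.log n) ≤ 20 := by
            rw [Real.sqrt_le_left (by norm_num)]
            linarith
          calc Real.log n = √(Real.log n) * √(Real.log n) := (Real.mul_self_sqrt hL0).symm
            _ ≤ 20 * √(Real.log n) := mul_le_mul_of_nonneg_right h2 (Real.sqrt_nonneg _)
        have h3 : (n : ℝ) * Real.exp (-20 * √(Real.log n)) ≤ 1 := by
          calc (n : ℝ) * Real.exp (-20 * √(Real.log n)) = Real.exp (Real.log n + -20 * √(Real.log n)) := by
                rw [Real.exp_add, Real.exp_log hn0]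
            _ ≤ Real.exp 0 := by apply Real.exp_le_exp.2; linarith
            _ = 1 := Real.exp_zero
        calc (n : ℝ) ^ 2 * Real.exp (-20 * √(Real.log n)) = n * (n * Real.exp (-20 * √(Real.log n))) := by ring
          _ ≤ n * 1 := by gcongr
          _ = n := mul_one _

end Pool.Agent.Results.MP_dd2a0a_lc.HubLabelLower
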