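import Pool.Agent.Lib.MP_dd2a0a_lc.OR.All

/-!
# MP_dd2a0a_lc, Q1 : the negated form is true

There is a data structure for reachability in sparse directed graphs with space `n ^ 2 / (log n) ^ ω(1)` and query time
`n / (log n) ^ ω(1)`. The machine model (`DDA.Cmd`, `DDA.St`, `DDA.Exec`) is in `Pool.Agent.Lib.MP_dd2a0a_lc.OR.Machine`.

* `P` is one fixed program for all `n`, all graphs and all densities `c`.
* `data` is the list of stored words; it may depend on the graph in any way (preprocessing is unrestricted).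
* The word length is `16 (⌊log₂ n⌋ + 1)` bits.
* The start state `s` of a query has `u`, `v` in the registers 0 and 1 and the stored words in the cells `0, 1, …`; all other
  registers and cells are arbitrary.
* The run of `P` is unique; it halts within `T n` steps, the answer is in register 2, and it changes neither a stored word nor
  a cell with address `≥ S n` (so `S n` counts also the cells used for scratch).

Idea of the proof: `n ^ (1/4)` random hubs hit all big predecessor sets. If `v` is reachable from `w`, then every hub which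
reaches `w` reaches `v`. This inclusion of hub sets is tested by means of a decomposition of the incidence matrix (hubs against
vertices) into quasipolynomially many boxes, up to few exceptional pairs. A search from `u` which only expands vertices passing
the test is short unless `v` is reachable or the pair is on a short list of exceptions.
-/

namespace Pool.Agent.Results.MP_dd2a0a_lc.SuperpolyOracle

open DDA

theorem result : ∃ P : DDA.Cmd, ∀ c : ℕ, ∃ S T : ℕ → ℕ,
    (∀ k : ℕ, ∀ᶠ n in Filter.atTop,
      S n * (Nat.log 2 n) ^ k ≤ n ^ 2 ∧ T n * (Nat.log 2 n) ^ k ≤ n) ∧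
    ∀ (n : ℕ) (G : Finset (ℕ × ℕ)), (∀ e ∈ G, e.1 < n ∧ e.2 < n) → G.card ≤ c * n →
      ∃ data : List ℕ, data.length ≤ S n ∧
        (∀ a ∈ data, a < 2 ^ (16 * (Nat.log 2 n + 1))) ∧
        ∀ u < n, ∀ v < n, ∀ s : DDA.St, s.reg 0 = u → s.reg 1 = v →
          (∀ i < data.length, s.mem i = data.getD i 0) →
          ∃ (t : ℕ) (s' : DDA.St), DDA.Exec (2 ^ (16 * (Nat.log 2 n + 1))) P s t s' ∧ t ≤ T n ∧
            (Relation.ReflTransGen (fun a b => (a, b) ∈ G) u v → s'.reg 2 = 1) ∧
            (¬ Relation.ReflTransGen (fun a b => (a, b) ∈ G) u v → s'.reg 2 = 0) ∧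
            (∀ i, (i < data.length ∨ S n ≤ i) → s'.mem i = s.mem i) ∧
            (∀ (t₂ : ℕ) (s₂ : DDA.St),
              DDA.Exec (2 ^ (16 * (Nat.log 2 n + 1))) P s t₂ s₂ → t₂ = t ∧ s₂ = s') := by
  obtain ⟨P, hP⟩ := DDA.all_final2
  refine ⟨P, fun c => ?_⟩
  obtain ⟨S, T, hST, h⟩ := hP c
  refine ⟨S, T, hST, fun n G hG hc => ?_⟩
  obtain ⟨data, h1, h2, h3⟩ := h n G hG hc
  refine ⟨data, h1, h2, fun u hu v hv s hs0 hs1 hm => ?_⟩
  obtain ⟨t, s', e, ht, hf, hy, hn⟩ := h3 u hu v hv s hs0 hs1 hm
  refine ⟨t, s', e, ht, hy, hn, hf, fun t₂ s₂ e₂ => ?_⟩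
  obtain ⟨a, b⟩ := piece_det _ _ _ _ _ _ _ e e₂
  exact ⟨a.symm, b.symm⟩

end Pool.Agent.Results.MP_dd2a0a_lc.SuperpolyOracle
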